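import Pool.Agent.U226.FX.Ker
import Pool.Agent.U226.FX.Pure

/-!
# Two kernels of Abel-Jacobi type on the powers of `T ⊗ Tᘁ`
-/

set_option autoImplicit false
set_option linter.unusedSectionVars false

open CategoryTheory Limits MonoidalCategory Module Filter Topology
open Pool.Agent.Y112.SR Pool.Agent.Y112.KD Pool.Agent.N64.AF Pool.Agent.U226.FX
open scoped ENNReal

namespace Pool.Agent.U226.KP

universe v u w

variable {C : Type u} [Category.{v} C] [Preadditive C] [MonoidalCategory C]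
  [MonoidalPreadditive C] [SymmetricCategory C] [RightRigidCategory C]
  [Linear ℚ C] [MonoidalLinear ℚ C]
  {K : Type w} [Field K] [IsAlgClosed K] [Algebra ℚ K] {R : SuperRealisation C K}

/-- The dimension of the quotient of `I` by its intersection with `J`. -/
noncomputable def quotDim {V : Type v} [AddCommGroup V] [Module ℚ V] (I J : Submodule ℚ V) : ℕ∞ :=
  dimE ℚ (FX.Rel J I)

/-- The dimension of the quotient of the kernel `A` on `B ⊗ T ^ n` by its intersection with the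
kernel `A'`. -/
noncomputable def relKerDim (A A' : AJKernel R) (B T : C) (n : ℕ) : ℕ∞ :=
  quotDim (A.ker (𝟙_ C) (B ⊗ tp T n)) (A'.ker (𝟙_ C) (B ⊗ tp T n))

/-- The kernel `A` on `Y` is contained in the kernel `A'`. -/
def KerLe (A A' : AJKernel R) (Y : C) : Prop :=
  ∀ α : 𝟙_ C ⟶ Y, α ∈ A.ker (𝟙_ C) Y → α ∈ A'.ker (𝟙_ C) Y

/-- The kernel `A` on `Y` is zero. -/
def KerZero (A : AJKernel R) (Y : C) : Prop :=
  ∀ α : 𝟙_ C ⟶ Y, α ∈ A.ker (𝟙_ C) Y → α = 0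

/-- The limits for one kernel. -/
def Limits (A : AJKernel R) (B T : C) (N d : ℕ∞) : Prop :=
  RatioTo ℚ (T ⊗ Tᘁ) (kerDim A B (T ⊗ Tᘁ)) N ∧ RatioTo ℚ (T ⊗ Tᘁ) (rankSeq ℚ B (T ⊗ Tᘁ)) d ∧
  (N = 0 ↔ ∀ n : ℕ, KerZero A (B ⊗ tp (T ⊗ Tᘁ) n)) ∧
  (d = 0 ↔ ∀ (n : ℕ) (α : 𝟙_ C ⟶ B ⊗ tp (T ⊗ Tᘁ) n), NumTriv α) ∧ (R.CPlus B → d ≤ bt R B)

/-- Homologically trivial endomorphisms of the powers of `T` and classes on the powers of `T ⊗ Tᘁ`
are nilpotent with the exponent `k + 2`, and `T` is Kimura finite. -/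
def Nilpotence (R : SuperRealisation C K) (T : C) (k : ℕ) : Prop :=
  (∀ (n : ℕ) (y : End (tp T n)), R.H.map (y : tp T n ⟶ tp T n) = 0 → y ^ (k + 2) = 0) ∧
  (∀ (n : ℕ) (α : 𝟙_ C ⟶ tp (T ⊗ Tᘁ) n), R.H.map α = 0 → tpow α (k + 2) = 0) ∧
  Pool.Agent.R905.IsKimuraFinite T

/-- The bounds below for the sequence `a` with the threshold for `m`. -/
def LargeFrom (R : SuperRealisation C K) (T : C) (a : ℕ → ℕ∞) (m : ℕ) : Prop :=
  ∀ n : ℕ, 128 * (m + 1) ^ 2 * bt R T ^ (4 * m + 12) ≤ n →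
    (numRank ℚ (tp (T ⊗ Tᘁ) n) : ℕ∞) ≤ 2 * a n ∧
    ((bt R T ^ (2 * n) : ℕ) : ℕ∞) ≤ (2 * (n + 1) ^ (bt R T ^ 2) : ℕ) * a n

/-- The law for one kernel. -/
def KernelPart (A : AJKernel R) (B T : C) (N d : ℕ∞) : Prop :=
  Limits A B T N d ∧ (d ≠ 0 → ∀ k : ℕ, N = k → Nilpotence R T k) ∧
  ∀ m : ℕ, ¬ KerZero A (B ⊗ tp (T ⊗ Tᘁ) m) → LargeFrom R T (kerDim A B (T ⊗ Tᘁ)) m

/-- The law for the comparison of two kernels. -/
def ComparisonPart (A A' : AJKernel R) (B T : C) (M : ℕ∞) : Prop :=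
  RatioTo ℚ (T ⊗ Tᘁ) (relKerDim A A' B (T ⊗ Tᘁ)) M ∧
  (M = 0 ↔ ∀ n : ℕ, KerLe A A' (B ⊗ tp (T ⊗ Tᘁ) n)) ∧
  ∀ m : ℕ, ¬ KerLe A A' (B ⊗ tp (T ⊗ Tᘁ) m) → LargeFrom R T (relKerDim A A' B (T ⊗ Tᘁ)) m

lemma dimRel_two (A A' : AJKernel R) (B T : C) :
    dimRel (fun Y : C => A'.ker (𝟙_ C) Y) (fun Y : C => A.ker (𝟙_ C) Y) B T =
      relKerDim A A' B T := rfl

lemma bound_sq {b m n : ℕ} (h : 128 * (m + 1) ^ 2 * b ^ (4 * m + 12) ≤ n) :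
    128 * (m + 1) ^ 2 * (b ^ 2) ^ (2 * m + 6) ≤ n := by
  rw [← pow_mul]
  have e2 : 2 * (2 * m + 6) = 4 * m + 12 := by ring
  rwa [e2]

theorem kernel_part [IsIdempotentComplete C] (hR : IsReal ℚ R) {T : C} (hT : R.CPlus T)
    (hb : 0 < bt R T) (A : AJKernel R) (B : C) : ∃ N d : ℕ∞, KernelPart A B T N d := by
  obtain ⟨inst, h⟩ := isPow_tensor_dual hR hT hb
  obtain ⟨N, h1, h2, h3, h4⟩ := fix_law h bot_stable (ker_stable A) B
  obtain ⟨d, k1, k2, k3⟩ := num_law h B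
  have e1 : bt R (T ⊗ Tᘁ) = bt R T ^ 2 := by rw [bt_tensor, bt_dual, sq]
  rw [dimRel_ker] at h1
  refine ⟨N, d, ⟨h1, k1, ?_, ?_, k2⟩, ?_, ?_⟩
  · rw [h2]
    refine forall_congr' fun n => ⟨fun h α hα => (Submodule.mem_bot ℚ).1 (h hα),
      fun h α hα => (Submodule.mem_bot ℚ).2 (h α hα)⟩
  · constructor
    · intro hd n α
      by_contra hα
      exact k3.1 ⟨n, α, hα⟩ hd
    · intro hall
      by_contra hd
      obtain ⟨p, β, hβ⟩ := k3.2 hd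
      exact hβ (hall p β)
  · intro hd k hk
    obtain ⟨p, β, hβ⟩ := k3.2 hd
    have hN : ∀ (a b : ℕ) (f : tp (T ⊗ Tᘁ) a ⟶ tp (T ⊗ Tᘁ) b), NumPow (T ⊗ Tᘁ) k f →
        ∀ x ∈ A.ker (𝟙_ C) (B ⊗ tp (T ⊗ Tᘁ) a), x ≫ (B ◁ f) = 0 :=
      fun a b f hf x hx => (Submodule.mem_bot ℚ).1 (h4 k hk a b f hf x hx)
    have key : ∀ (n : ℕ) (y : End (tp T n)), R.H.map (y : tp T n ⟶ tp T n) = 0 →
        y ^ (k + 2) = 0 :=
      fun n y hy => end_pow_hom hR (fun n y hy => ker_pow hR A hN hβ n y hy) n y hy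
    exact ⟨key, fun n α hα => ker_tpow hR A hN hβ α hα,
      kimura_of_nil hR hT fun n y hy => ⟨k + 2, key n y hy⟩⟩
  · intro m hm n hn
    unfold KerZero at hm
    push Not at hm
    obtain ⟨α, hα, hα'⟩ := hm
    have h5 : (numRank ℚ (tp (T ⊗ Tᘁ) n) : ℕ∞) ≤ 2 * kerDim A B (T ⊗ Tᘁ) n := by
      by_contra hcon
      rw [not_le] at hcon
      rw [dimRel_ker] at h3
      have h6 := h3 m n (by rw [e1]; exact bound_sq hn) hcon hα
      exact hα' ((Submodule.mem_bot ℚ).1 h6)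
    exact ⟨h5, growth_nc hR hT h5⟩

theorem comparison_part (hR : IsReal ℚ R) {T : C} (hT : R.CPlus T)
    (hb : 0 < bt R T) (A A' : AJKernel R) (B : C) : ∃ M : ℕ∞, ComparisonPart A A' B T M := by
  obtain ⟨inst, h⟩ := isPow_tensor_dual hR hT hb
  obtain ⟨M, h1, h2, h3, -⟩ := fix_law h (ker_stable A') (ker_stable A) B
  have e1 : bt R (T ⊗ Tᘁ) = bt R T ^ 2 := by rw [bt_tensor, bt_dual, sq]
  rw [dimRel_two] at h1
  refine ⟨M, h1, h2, ?_⟩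
  intro m hm n hn
  unfold KerLe at hm
  push Not at hm
  obtain ⟨α, hα, hα'⟩ := hm
  have h5 : (numRank ℚ (tp (T ⊗ Tᘁ) n) : ℕ∞) ≤ 2 * relKerDim A A' B (T ⊗ Tᘁ) n := by
    by_contra hcon
    rw [not_le] at hcon
    rw [dimRel_two] at h3
    exact hα' (h3 m n (by rw [e1]; exact bound_sq hn) hcon hα)
  exact ⟨h5, growth_nc hR hT h5⟩

end Pool.Agent.U226.KP
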